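import Pool.Agent.Helper74.NW.Basic

/-!
# The cut lemma

The accepting computations query some `w` cells at most `r` times each. Then between two states of an accepting computation
the greatest possible number of queries of rare cells, over ALL runs between the two states, is superadditive, and the
computation can be cut into few parts between the ends of which EVERY run leaves nearly `w` cells unread (or which are
single steps).
-/

set_option autoImplicit false
set_option linter.unusedSectionVars false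

namespace Pool.Agent.Helper89.RQ

open Finset Pool.Agent.Helper74.NW

section cut

variable {C W Z : Type} {S : ℕ} {P : NProg C W Z S} {I : C → W} {φ : List C → ℕ}

/-- The powers of a loop. -/
theorem loop_pow (hφ : ∀ a b, φ a + φ b ≤ φ (a ++ b)) {s : Fin S} {l : List C} (hl : P.Run I s l s) (k : ℕ) :
    ∃ c, P.Run I s c s ∧ k * φ l ≤ φ c := by
  induction k with
  | zero => exact ⟨[], NProg.Run.nil s, by simp⟩
  | succ k ih =>
    obtain ⟨c, hc, h⟩ := ih
    refine ⟨l ++ c, run_append hl hc, ?_⟩
    have := hφ l c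
    rw [Nat.succ_mul]
    omega

/-- Loops on accepting computations are free. -/
theorem loop_zero (hφ : ∀ a b, φ a + φ b ≤ φ (a ++ b)) {s t : Fin S} {M : ℕ}
    (hall : ∀ c, P.Run I s c t → φ c ≤ M) {c0 : List C} (h0 : P.Run I s c0 t) {l : List C} (hl : P.Run I s l s) :
    φ l = 0 := by
  by_contra hne
  obtain ⟨c, hc, h⟩ := loop_pow hφ hl (M + 1)
  have h1 := hall _ (run_append hc h0)
  have h2 := hφ c c0
  have h3 : (M + 1) * 1 ≤ (M + 1) * φ l := Nat.mul_le_mul_left _ (Nat.one_le_iff_ne_zero.2 hne)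
  omega

/-- The first point at which the greatest cost exceeds `e`. -/
theorem first {e : ℕ} {s t : Fin S} (b : List C) : ∀ {p : Fin S}, (∃ a, P.Run I s a p) →
    (∀ c, P.Run I s c p → φ c ≤ e) → P.Run I p b t →
    (∀ c, P.Run I s c t → φ c ≤ e) ∨
      ∃ p p' x b', (∃ a, P.Run I s a p) ∧ (∀ c, P.Run I s c p → φ c ≤ e) ∧ P.Run I p [x] p' ∧ P.Run I p' b' t ∧
        ∃ d, P.Run I s d p' ∧ e < φ d := by
  induction b with
  | nil =>
    intro p _ h1 h2
    cases h2
    exact Or.inl h1
  | cons x b ih =>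
    rintro p ⟨a, ha⟩ h1 h2
    cases h2 with
    | cons _ p' _ _ next _ h3 h4 h5 =>
      have hx : P.Run I p [x] p' := NProg.Run.cons p p' p' x next [] h3 h4 (NProg.Run.nil p')
      by_cases h6 : ∀ c, P.Run I s c p' → φ c ≤ e
      · exact ih ⟨a ++ [x], run_append ha hx⟩ h6 h5
      · push Not at h6
        obtain ⟨d, hd, hd'⟩ := h6
        exact Or.inr ⟨p, p', x, b, ⟨a, ha⟩, h1, hx, h5, d, hd, hd'⟩

/-- The parts between consecutive states of `σ`. -/
def Part (P : NProg C W Z S) (I : C → W) (φ : List C → ℕ) (e : ℕ) (s t : Fin S) : Prop :=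
  ∃ c, P.Run I s c t ∧ (c.length ≤ 1 ∨ ∀ c', P.Run I s c' t → φ c' ≤ e)

/-- **The cut lemma.** -/
theorem cut (hφ : ∀ a b, φ a + φ b ≤ φ (a ++ b)) (e : ℕ) (t : Fin S) : ∀ (M : ℕ) (s : Fin S),
    (∀ c, P.Run I s c t → φ c ≤ M) → (∃ c, P.Run I s c t) →
    ∃ K, K * (e + 1) ≤ 2 * M + (e + 1) ∧ ∃ σ : ℕ → Fin S, σ 0 = s ∧ σ K = t ∧
      ∀ j < K, Part P I φ e (σ j) (σ (j + 1)) := by
  intro M
  induction M using Nat.strong_induction_on with
  | _ M ih =>
    rintro s hall ⟨c0, hc0⟩
    rcases first (φ := φ) (e := e) c0 (p := s) ⟨[], NProg.Run.nil s⟩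
      (fun c hc => by rw [loop_zero hφ hall hc0 hc]; exact Nat.zero_le _) hc0 with h | h
    · refine ⟨1, by omega, fun j => if j = 0 then s else t, by simp, by simp, fun j hj => ?_⟩
      have hj0 : j = 0 := by omega
      subst hj0
      simp only [if_true, zero_add, one_ne_zero, if_false]
      exact ⟨c0, hc0, Or.inr h⟩
    · obtain ⟨p, p', x, b, ⟨a, ha⟩, h1, h2, h3, d, hd, hd'⟩ := h
      have hM : e < M := by
        have := hall _ (run_append hd h3)
        have := hφ d b
        omega
      obtain ⟨K, hK, σ, hσ0, hσK, hσ⟩ := ih (M - (e + 1)) (by omega) p'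
        (fun c hc => by
          have := hall _ (run_append hd hc)
          have := hφ d c
          omega) ⟨b, h3⟩
      refine ⟨K + 2, ?_, fun j => if j = 0 then s else if j = 1 then p else σ (j - 2), by simp, ?_, ?_⟩
      · rw [Nat.add_mul]
        omega
      · have : K + 2 ≠ 1 := by omega
        simp only [this, if_false, Nat.add_eq_zero_iff, OfNat.ofNat_ne_zero, and_false, Nat.add_sub_cancel]
        exact hσK
      · intro j hj
        rcases Nat.lt_or_ge j 2 with hj2 | hj2
        · interval_cases j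
          · simp only [if_true, zero_add, one_ne_zero, if_false]
            exact ⟨a, ha, Or.inr h1⟩
          · simp only [one_ne_zero, if_false, if_true, Nat.reduceAdd, OfNat.ofNat_ne_zero, OfNat.ofNat_ne_one,
              Nat.sub_self, hσ0]
            exact ⟨[x], h2, Or.inl le_rfl⟩
        · obtain ⟨i, rfl⟩ := Nat.exists_eq_add_of_le hj2
          have e1 : ¬ (2 + i = 0) := by omega
          have e2 : ¬ (2 + i = 1) := by omega
          have e3 : ¬ (2 + i + 1 = 0) := by omega
          have e4 : ¬ (2 + i + 1 = 1) := by omega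
          have e5 : 2 + i - 2 = i := by omega
          have e6 : 2 + i + 1 - 2 = i + 1 := by omega
          simp only [e1, e2, e3, e4, if_false, e5, e6]
          exact hσ i (by omega)

/-- The same with exactly `K` parts. -/
theorem cut_pad (hφ : ∀ a b, φ a + φ b ≤ φ (a ++ b)) (e M K : ℕ) (hK : 2 * M + (e + 1) ≤ K * (e + 1)) (s t : Fin S)
    (hall : ∀ c, P.Run I s c t → φ c ≤ M) (hex : ∃ c, P.Run I s c t) :
    ∃ σ : ℕ → Fin S, σ 0 = s ∧ σ K = t ∧ ∀ j < K, Part P I φ e (σ j) (σ (j + 1)) := by
  obtain ⟨K', hK', σ, h0, h1, h2⟩ := cut hφ e t M s hall hex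
  have hle : K' ≤ K := Nat.le_of_mul_le_mul_right (hK'.trans hK) (Nat.succ_pos e)
  refine ⟨fun j => if j ≤ K' then σ j else t, by simp [h0], ?_, fun j hj => ?_⟩
  · rcases Nat.lt_or_ge K' K with h | h
    · simp only [if_neg (not_le.2 h)]
    · have : K = K' := le_antisymm h hle
      subst this
      simp [h1]
  · rcases Nat.lt_trichotomy j K' with h | h | h
    · simp only [if_pos h.le, if_pos (Nat.succ_le_of_lt h)]
      exact h2 j h
    · subst h
      simp only [le_refl, if_true, Nat.not_succ_le_self, if_false, h1]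
      exact ⟨[], NProg.Run.nil t, Or.inl (Nat.zero_le _)⟩
    · simp only [if_neg (not_le.2 h), if_neg (not_le.2 (h.trans (Nat.lt_succ_self j)))]
      exact ⟨[], NProg.Run.nil t, Or.inl (Nat.zero_le _)⟩

end cut

section phi

variable {C W Z : Type} [Fintype C] [DecidableEq C] {S : ℕ}

/-- The least number of queries of elements of a set of `w` cells. -/
noncomputable def phi (w : ℕ) (l : List C) : ℕ := sInf {e | ∃ X : Finset C, w ≤ X.card ∧ l.countP (· ∈ X) = e}

theorem phi_mem (w : ℕ) (hw : w ≤ Fintype.card C) (l : List C) :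
    ∃ X : Finset C, w ≤ X.card ∧ l.countP (· ∈ X) = phi w l :=
  Nat.sInf_mem (s := {e | ∃ X : Finset C, w ≤ X.card ∧ l.countP (· ∈ X) = e}) ⟨_, univ, hw, rfl⟩

theorem phi_le (w : ℕ) (l : List C) (X : Finset C) (hX : w ≤ X.card) : phi w l ≤ l.countP (· ∈ X) :=
  Nat.sInf_le ⟨X, hX, rfl⟩

/-- Superadditive. -/
theorem phi_append (w : ℕ) (hw : w ≤ Fintype.card C) (a b : List C) : phi w a + phi w b ≤ phi w (a ++ b) := by
  obtain ⟨X, hX, h⟩ := phi_mem w hw (a ++ b)
  rw [← h, List.countP_append]
  exact Nat.add_le_add (phi_le w a X hX) (phi_le w b X hX)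

/-- The number of queries of the elements of `X`. -/
theorem countP_le (X : Finset C) (r : ℕ) (l : List C) (h : ∀ x ∈ X, l.count x ≤ r) :
    l.countP (· ∈ X) ≤ r * X.card := by
  have h1 : l.countP (· ∈ X) = ∑ x ∈ X, l.count x := by
    induction l with
    | nil => simp
    | cons y l ih =>
      have h2 : ∀ x ∈ X, l.count x ≤ r := fun x hx => (List.count_le_count_cons).trans (h x hx)
      rw [List.countP_cons, ih h2]
      simp only [List.count_cons, sum_add_distrib]
      congr 1
      by_cases hy : y ∈ X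
      · simp [hy]
      · simp [hy]
  rw [h1]
  calc ∑ x ∈ X, l.count x ≤ ∑ _x ∈ X, r := sum_le_sum h
    _ = r * X.card := by rw [sum_const, smul_eq_mul, mul_comm]

/-- Few queries of a large set: many cells are not queried. -/
theorem free_of_phi (w e : ℕ) (hw : w ≤ Fintype.card C) (l : List C) (h : phi w l ≤ e) :
    w ≤ ((univ : Finset C).filter (fun z => z ∉ l)).card + e := by
  obtain ⟨X, hX, h1⟩ := phi_mem w hw l
  have h2 : X ⊆ (univ.filter (fun z => z ∉ l)) ∪ (l.filter (· ∈ X)).toFinset := by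
    intro z hz
    rw [mem_union, mem_filter]
    by_cases hzl : z ∈ l
    · right
      rw [List.mem_toFinset, List.mem_filter]
      exact ⟨hzl, by simpa using hz⟩
    · left
      exact ⟨mem_univ _, hzl⟩
  calc w ≤ X.card := hX
    _ ≤ _ := card_le_card h2
    _ ≤ ((univ : Finset C).filter (fun z => z ∉ l)).card + ((l.filter (· ∈ X)).toFinset).card := card_union_le _ _
    _ ≤ ((univ : Finset C).filter (fun z => z ∉ l)).card + e := by
        refine Nat.add_le_add_left ?_ _
        calc ((l.filter (· ∈ X)).toFinset).card ≤ (l.filter (· ∈ X)).length := List.toFinset_card_le _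
          _ = l.countP (· ∈ X) := by rw [List.countP_eq_length_filter]
          _ ≤ e := by rw [h1]; exact h

/-- **The cut of the computations which query some `w` cells at most `r` times each**: `K` parts with
`2 r w + (e + 1) ≤ K (e + 1)`; each part is a single step (or nothing), or every run between its ends leaves `w - e` cells
unread. -/
theorem exists_cut (P : NProg C W Z S) (I : C → W) (w r e K : ℕ) (hw : w ≤ Fintype.card C)
    (hK : 2 * (r * w) + (e + 1) ≤ K * (e + 1)) (s t : Fin S)
    (hall : ∀ c, P.Run I s c t → ∃ X : Finset C, w ≤ X.card ∧ ∀ x ∈ X, c.count x ≤ r)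
    (hex : ∃ c, P.Run I s c t) :
    ∃ σ : ℕ → Fin S, σ 0 = s ∧ σ K = t ∧ ∀ j < K, ∃ c, P.Run I (σ j) c (σ (j + 1)) ∧
      (c.length ≤ 1 ∨ ∀ c', P.Run I (σ j) c' (σ (j + 1)) →
        w ≤ ((univ : Finset C).filter (fun z => z ∉ c')).card + e) := by
  obtain ⟨σ, h0, h1, h2⟩ := cut_pad (P := P) (I := I) (phi_append w hw) e (r * w) K hK s t (fun c hc => by
    obtain ⟨X, hX, hXc⟩ := hall c hc
    obtain ⟨X', hX'1, hX'2⟩ := exists_subset_card_eq hX
    calc phi w c ≤ c.countP (· ∈ X') := phi_le w c X' hX'2.ge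
      _ ≤ r * X'.card := countP_le X' r c fun x hx => hXc x (hX'1 hx)
      _ = r * w := by rw [hX'2]) hex
  refine ⟨σ, h0, h1, fun j hj => ?_⟩
  obtain ⟨c, hc, h⟩ := h2 j hj
  refine ⟨c, hc, h.imp id fun h c' hc' => free_of_phi w e hw c' (h c' hc')⟩

end phi

end Pool.Agent.Helper89.RQ
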